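import Pool.Agent.H992.BE.Defs

/-!
# The local regularisation map (statement `S_Regf` of the project BE)
-/

set_option autoImplicit false
open MeasureTheory Filter Topology Complex ProbabilityTheory
open scoped ContDiff ENNReal NNReal BoundedContinuousFunction

namespace Pool.Agent.H784.BE

open Pool.Agent.W745.RW (lap)
open Pool.Agent.K3h40.EC (psi psi_smooth psi_zero psi_supp psi_comp)
open Pool.Agent.H992.BE

theorem cB_int (ρ : ℝ) (h : ℂ → ℝ) (hh : Continuous h) :
    IntegrableOn h (Metric.closedBall (0 : ℂ) ρ) :=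
  hh.continuousOn.integrableOn_compact (isCompact_closedBall _ _)

/-- a kernel supported in `|v| ≤ R + 1` -/
theorem bound (ρ R M : ℝ) (f : C(ℂ, ℝ)) (h : ℂ → ℝ) (hh : Continuous h) (hM : ∀ v, |h v| ≤ M)
    (h0 : ∀ v, R + 1 < ‖v‖ → h v = 0) :
    |∫ v in Metric.closedBall (0 : ℂ) ρ, f v * h v| ≤
      M * ∫ v in Metric.closedBall (0 : ℂ) (R + 1), |f v| := by
  have hc : Continuous fun v => |f v * h v| := (f.continuous.mul hh).abs
  have hz : ∀ v, v ∉ Metric.closedBall (0 : ℂ) (R + 1) → |f v * h v| = 0 := by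
    intro v hv
    rw [mem_closedBall_zero_iff, not_le] at hv
    rw [h0 v hv, mul_zero, abs_zero]
  have hint : Integrable fun v => |f v * h v| := by
    refine (integrableOn_iff_integrable_of_support_subset (s := Metric.closedBall (0 : ℂ) (R + 1))
      ?_).mp (cB_int _ _ hc)
    intro v hv
    by_contra hv'
    exact hv (hz v hv')
  calc |∫ v in Metric.closedBall (0 : ℂ) ρ, f v * h v|
      ≤ ∫ v in Metric.closedBall (0 : ℂ) ρ, |f v * h v| := abs_integral_le_integral_abs
    _ ≤ ∫ v, |f v * h v| :=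
        setIntegral_le_integral hint (Eventually.of_forall fun v => abs_nonneg _)
    _ = ∫ v in Metric.closedBall (0 : ℂ) (R + 1), |f v * h v| :=
        (setIntegral_eq_integral_of_forall_compl_eq_zero hz).symm
    _ ≤ ∫ v in Metric.closedBall (0 : ℂ) (R + 1), M * |f v| := by
        refine integral_mono (cB_int _ _ hc)
          (cB_int _ _ (continuous_const.mul f.continuous.abs)) (fun v => ?_)
        change |f v * h v| ≤ M * |f v|
        rw [abs_mul, mul_comm]
        exact mul_le_mul_of_nonneg_right (hM v) (abs_nonneg _)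
    _ = _ := integral_const_mul _ _

theorem psi_c : Continuous psi := psi_smooth.continuous

theorem psi_sub_c (x : ℂ) : Continuous fun v => psi (v - x) :=
  psi_c.comp (continuous_id.sub continuous_const)

theorem psi_bd : ∃ B : ℝ, 0 ≤ B ∧ ∀ v, |psi v| ≤ B := by
  obtain ⟨B, hB⟩ := psi_comp.exists_bound_of_continuous psi_c
  exact ⟨B, (norm_nonneg _).trans (hB 0), hB⟩

theorem psi_lip : ∃ L : ℝ, 0 ≤ L ∧ ∀ v w, |psi v - psi w| ≤ L * ‖v - w‖ := by
  obtain ⟨L, hL⟩ := ContDiff.lipschitzWith_of_hasCompactSupport psi_comp psi_smooth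
    (by simp)
  refine ⟨L, L.2, fun v w => ?_⟩
  have h := hL.dist_le_mul v w
  rw [Real.dist_eq, dist_eq_norm] at h
  exact h

theorem fpsi_int (ρ : ℝ) (f : C(ℂ, ℝ)) (x : ℂ) :
    Integrable (fun v => f v * psi (v - x)) (volume.restrict (Metric.closedBall (0 : ℂ) ρ)) :=
  cB_int _ _ (f.continuous.mul (psi_sub_c x))

theorem psi_far {R : ℝ} {x v : ℂ} (hx : ‖x‖ ≤ R) (hv : R + 1 < ‖v‖) : psi (v - x) = 0 := by
  refine psi_zero ?_
  have h := norm_sub_norm_le v x
  linarith

theorem regf_sub_x (ρ : ℝ) (f : C(ℂ, ℝ)) (x y : ℂ) : regf ρ f x - regf ρ f y =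
    ∫ v in Metric.closedBall (0 : ℂ) ρ, f v * (psi (v - x) - psi (v - y)) := by
  unfold regf
  rw [← integral_sub (fpsi_int ρ f x) (fpsi_int ρ f y)]
  refine integral_congr_ae (Eventually.of_forall fun v => ?_)
  change f v * psi (v - x) - f v * psi (v - y) = f v * (psi (v - x) - psi (v - y))
  ring

theorem regf_sub_f (ρ : ℝ) (f g : C(ℂ, ℝ)) (x : ℂ) : regf ρ f x - regf ρ g x =
    ∫ v in Metric.closedBall (0 : ℂ) ρ, (f v - g v) * psi (v - x) := by
  unfold regf
  rw [← integral_sub (fpsi_int ρ f x) (fpsi_int ρ g x)]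
  refine integral_congr_ae (Eventually.of_forall fun v => ?_)
  change f v * psi (v - x) - g v * psi (v - x) = (f v - g v) * psi (v - x)
  ring

/-- the two bounds -/
theorem regf_bd {B L : ℝ} (hB : ∀ v, |psi v| ≤ B) (hL : ∀ v w, |psi v - psi w| ≤ L * ‖v - w‖)
    (ρ R : ℝ) (f : C(ℂ, ℝ)) (x y : ℂ) (hx : ‖x‖ ≤ R) (hy : ‖y‖ ≤ R) :
    |regf ρ f x| ≤ B * (∫ v in Metric.closedBall (0 : ℂ) (R + 1), |f v|) ∧
    |regf ρ f x - regf ρ f y| ≤
      (L * ‖x - y‖) * (∫ v in Metric.closedBall (0 : ℂ) (R + 1), |f v|) := by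
  refine ⟨bound ρ R B f _ (psi_sub_c x) (fun v => hB _) (fun v hv => psi_far hx hv), ?_⟩
  rw [regf_sub_x]
  refine bound ρ R _ f _ ((psi_sub_c x).sub (psi_sub_c y)) (fun v => ?_) (fun v hv => ?_)
  · have h := hL (v - x) (v - y)
    have e : (v - x) - (v - y) = -(x - y) := by ring
    rw [e, norm_neg] at h
    exact h
  · rw [psi_far hx hv, psi_far hy hv, sub_self]

theorem regf_cont (ρ : ℝ) (f : C(ℂ, ℝ)) : Continuous (regf ρ f) := by
  obtain ⟨B, -, hB⟩ := psi_bd
  obtain ⟨L, -, hL⟩ := psi_lip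
  refine continuous_iff_continuousAt.mpr fun x => ?_
  refine continuousAt_of_locally_lipschitz one_pos
    (L * ∫ v in Metric.closedBall (0 : ℂ) (‖x‖ + 1 + 1), |f v|) (fun y hy => ?_)
  rw [dist_eq_norm] at hy
  have h1 : ‖y‖ ≤ ‖x‖ + 1 := by
    have h2 := norm_sub_norm_le y x
    linarith
  have h3 := (regf_bd hB hL ρ (‖x‖ + 1) f y x h1 (by linarith)).2
  rw [Real.dist_eq, dist_eq_norm]
  refine h3.trans (le_of_eq ?_)
  ring

/-- the regularisation as a map -/
noncomputable def rr (ρ : ℝ) (f : C(ℂ, ℝ)) : C(ℂ, ℝ) := ⟨regf ρ f, regf_cont ρ f⟩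

theorem rr_cont (ρ : ℝ) : Continuous (rr ρ) := by
  obtain ⟨B, hB0, hB⟩ := psi_bd
  refine continuous_iff_continuousAt.mpr fun g => ?_
  refine (ContinuousMap.tendsto_iff_forall_isCompact_tendstoUniformlyOn).mpr fun K _ => ?_
  rw [Metric.tendstoUniformlyOn_iff]
  intro ε hε
  obtain ⟨V, hV⟩ : ∃ V : ℝ, V = (volume : Measure ℂ).real (Metric.closedBall (0 : ℂ) ρ) := ⟨_, rfl⟩
  have hV0 : 0 ≤ V := by rw [hV]; exact measureReal_nonneg
  have hpos : 0 < B * V + 1 := by positivity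
  have h1 : TendstoUniformlyOn (fun (f : C(ℂ, ℝ)) (a : ℂ) => f a) g (𝓝 g)
      (Metric.closedBall (0 : ℂ) ρ) :=
    (ContinuousMap.tendsto_iff_forall_isCompact_tendstoUniformlyOn (F := fun f : C(ℂ, ℝ) => f)).mp
      tendsto_id _ (isCompact_closedBall _ _)
  rw [Metric.tendstoUniformlyOn_iff] at h1
  filter_upwards [h1 (ε / (B * V + 1)) (by positivity)] with f hf x _
  rw [Real.dist_eq]
  change |regf ρ g x - regf ρ f x| < ε
  rw [regf_sub_f]
  have h2 : ‖∫ v in Metric.closedBall (0 : ℂ) ρ, (g v - f v) * psi (v - x)‖ ≤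
      (ε / (B * V + 1) * B) * (volume : Measure ℂ).real (Metric.closedBall (0 : ℂ) ρ) := by
    refine norm_setIntegral_le_of_norm_le_const measure_closedBall_lt_top (fun v hv => ?_)
    rw [norm_mul]
    have h3 : ‖g v - f v‖ ≤ ε / (B * V + 1) := by
      have h4 := hf v hv
      rw [dist_eq_norm] at h4
      exact h4.le
    exact mul_le_mul h3 (hB _) (norm_nonneg _) (by positivity)
  rw [Real.norm_eq_abs, ← hV] at h2
  refine lt_of_le_of_lt h2 ?_
  have h5 : ε / (B * V + 1) * B * V = ε * ((B * V) / (B * V + 1)) := by ring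
  rw [h5]
  have h6 : (B * V) / (B * V + 1) < 1 := (div_lt_one hpos).mpr (by linarith)
  calc ε * ((B * V) / (B * V + 1)) < ε * 1 := mul_lt_mul_of_pos_left h6 hε
    _ = ε := mul_one ε

/-- reproduction -/
theorem regf_rep (ρ R : ℝ) (f : C(ℂ, ℝ)) (hρ : R + 1 ≤ ρ) (hf : Good R f) (x : ℂ) (hx : ‖x‖ ≤ R) :
    regf ρ f x = f x := by
  rw [← (hf x hx).1]
  unfold regf
  rw [setIntegral_eq_integral_of_forall_compl_eq_zero]
  · rw [← integral_add_left_eq_self (fun v => f v * psi (v - x)) x]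
    refine integral_congr_ae (Eventually.of_forall fun w => ?_)
    change f (x + w) * psi (x + w - x) = f (x + w) * psi w
    rw [add_sub_cancel_left]
  · intro v hv
    rw [mem_closedBall_zero_iff, not_le] at hv
    rw [psi_far hx (by linarith), mul_zero]

/-- **The regularisation map.** -/
theorem regf_map : S_Regf := by
  obtain ⟨B, hB0, hB⟩ := psi_bd
  obtain ⟨L, hL0, hL⟩ := psi_lip
  refine ⟨rr, fun _ _ _ => rfl, rr_cont, fun ρ R f hρ hf x hx => regf_rep ρ R f hρ hf x hx,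
    max B L, le_max_of_le_left hB0, fun ρ R f x y hx hy => ?_⟩
  have h := regf_bd hB hL ρ R f x y hx hy
  have hI : 0 ≤ ∫ v in Metric.closedBall (0 : ℂ) (R + 1), |f v| :=
    integral_nonneg fun v => abs_nonneg _
  constructor
  · exact h.1.trans (mul_le_mul_of_nonneg_right (le_max_left _ _) hI)
  · refine h.2.trans ?_
    calc (L * ‖x - y‖) * (∫ v in Metric.closedBall (0 : ℂ) (R + 1), |f v|)
        = L * ((∫ v in Metric.closedBall (0 : ℂ) (R + 1), |f v|) * ‖x - y‖) := by ring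
      _ ≤ max B L * ((∫ v in Metric.closedBall (0 : ℂ) (R + 1), |f v|) * ‖x - y‖) :=
          mul_le_mul_of_nonneg_right (le_max_right _ _) (mul_nonneg hI (norm_nonneg _))
      _ = _ := by ring

end Pool.Agent.H784.BE
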